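import Mathlib

/-!
# A closure space of semilattice type whose clopen sets form a lattice, but not all regular
closed sets are clopen
-/

namespace Pool.Agent.Results.MP_df2171_co.ClopLatticeNotRegular

/-- The closure operator is algebraic: the closure of a set is the union of the closures of its
finite subsets. -/
def IsAlgebraic {P : Type} (φ : ClosureOperator (Set P)) : Prop :=
  ∀ x : Set P, φ x = ⋃ y ∈ {y : Set P | y ⊆ x ∧ y.Finite}, φ y

/-- `x` is inclusion-minimal among the sets `y` with `p ∈ φ(y)`. -/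
def IsMinimalCovering {P : Type} (φ : ClosureOperator (Set P)) (x : Set P) (p : P) : Prop :=
  p ∈ φ x ∧ ∀ y : Set P, y ⊂ x → p ∉ φ y

/-- `(P, φ)` is a closure space of semilattice type: `φ(∅) = ∅`, `φ` is algebraic, and for some
partial order on `P` every minimal covering of `p` has the join `p`. -/
def IsSemilatticeType {P : Type} (φ : ClosureOperator (Set P)) : Prop :=
  φ ∅ = ∅ ∧ IsAlgebraic φ ∧
    ∃ _o : PartialOrder P, ∀ (x : Set P) (p : P), IsMinimalCovering φ x p → IsLUB x p

/-- The set `a` is clopen: `a` and its complement are closed. -/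
def IsClop {P : Type} (φ : ClosureOperator (Set P)) (a : Set P) : Prop :=
  φ a = a ∧ φ aᶜ = aᶜ

/-- The set `a` is regular closed: it is the closure of its interior. -/
def IsReg {P : Type} (φ : ClosureOperator (Set P)) (a : Set P) : Prop :=
  a = φ (φ aᶜ)ᶜ

/-- The poset of clopen sets, ordered by inclusion, is a lattice: any two elements have a join
and a meet. -/
def ClopIsLattice {P : Type} (φ : ClosureOperator (Set P)) : Prop :=
  ∀ a b : {s : Set P // IsClop φ s}, (∃ j, IsLUB {a, b} j) ∧ ∃ m, IsGLB {a, b} m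

/-- The points of the space: six points on each level. -/
inductive El : Type
  | y1 : ℕ → El
  | y2 : ℕ → El
  | x1 : ℕ → El
  | x2 : ℕ → El
  | g : ℕ → El
  | p : ℕ → El

open El

/-- The generating coverings: `Rule a b c` says that `{a, b}` covers `c`. -/
inductive Rule : El → El → El → Prop
  | r1 (n : ℕ) : Rule (y1 (n + 1)) (x2 n) (y1 n)
  | r2 (n : ℕ) : Rule (y2 (n + 1)) (x2 n) (y1 n)
  | r3 (n : ℕ) : Rule (x1 (n + 1)) (g n) (x1 n)
  | r4 (n : ℕ) : Rule (x2 (n + 1)) (g n) (x1 n)
  | r5 (n : ℕ) : Rule (g n) (x2 n) (y2 n)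
  | r6 (n : ℕ) : Rule (y1 n) (y2 n) (p n)
  | r7 (n : ℕ) : Rule (x1 n) (x2 n) (p n)

/-- The closure generated by the rules. -/
inductive Cl (S : Set El) : El → Prop
  | base {a : El} : a ∈ S → Cl S a
  | step {a b c : El} : Rule a b c → Cl S a → Cl S b → Cl S c

lemma Cl.mono {S T : Set El} (h : S ⊆ T) {a : El} (ha : Cl S a) : Cl T a := by
  induction ha with
  | base h' => exact .base (h h')
  | step r _ _ ih1 ih2 => exact .step r ih1 ih2

lemma Cl.idem {S : Set El} {a : El} (ha : Cl {b | Cl S b} a) : Cl S a := by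
  induction ha with
  | base h' => exact h'
  | step r _ _ ih1 ih2 => exact .step r ih1 ih2

/-- The closure operator generated by the rules. -/
def φ : ClosureOperator (Set El) :=
  ClosureOperator.mk' (fun S => {a | Cl S a}) (fun _ _ h _ ha => Cl.mono h ha)
    (fun _ _ ha => Cl.base ha) (fun _ _ ha => Cl.idem ha)

lemma mem_φ {S : Set El} {a : El} : a ∈ φ S ↔ Cl S a := Iff.rfl

lemma closed_iff {S : Set El} :
    φ S = S ↔ ∀ a b c, Rule a b c → a ∈ S → b ∈ S → c ∈ S := by
  constructor
  · intro h a b c r ha hb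
    rw [← h]
    exact Cl.step r (Cl.base ha) (Cl.base hb)
  · intro h
    apply Set.Subset.antisymm
    · intro a ha
      rw [mem_φ] at ha
      induction ha with
      | base h' => exact h'
      | step r _ _ ih1 ih2 => exact h _ _ _ r ih1 ih2
    · intro a ha
      exact Cl.base ha

lemma clop_iff {S : Set El} :
    IsClop φ S ↔ ∀ a b c, Rule a b c → (a ∈ S → b ∈ S → c ∈ S) ∧ (c ∈ S → a ∈ S ∨ b ∈ S) := by
  unfold IsClop
  rw [closed_iff, closed_iff]
  constructor
  · rintro ⟨h1, h2⟩ a b c r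
    refine ⟨h1 a b c r, fun hc => ?_⟩
    by_contra hcon
    push Not at hcon
    exact h2 a b c r hcon.1 hcon.2 hc
  · intro h
    refine ⟨fun a b c r => (h a b c r).1, fun a b c r ha hb hc => ?_⟩
    rcases (h a b c r).2 hc with h' | h'
    · exact ha h'
    · exact hb h'

/-! ### Semilattice type -/

/-- The level of a point. -/
def lev : El → ℕ
  | y1 n => n
  | y2 n => n
  | x1 n => n
  | x2 n => n
  | g n => n
  | p n => n

/-- The order on the points. -/
def le (e : El) : El → Prop
  | p m => m ≤ lev e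
  | y1 m => m + 1 ≤ lev e ∨ e = y1 m ∨ e = x2 m
  | x1 m => m + 1 ≤ lev e ∨ e = x1 m ∨ e = g m
  | y2 m => e = y2 m ∨ e = x2 m ∨ e = g m
  | x2 m => e = x2 m
  | g m => e = g m

lemma le_refl' (e : El) : le e e := by
  cases e <;> simp [le, lev]

lemma lev_le {e f : El} (h : le e f) : lev f ≤ lev e := by
  cases f <;> simp only [le] at h
  · rcases h with h | rfl | rfl <;> simp only [lev] at * <;> omega
  · rcases h with rfl | rfl | rfl <;> simp only [lev] at * <;> omega
  · rcases h with h | rfl | rfl <;> simp only [lev] at * <;> omega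
  · subst h; simp [lev]
  · subst h; simp [lev]
  · simpa [lev] using h

lemma le_trans' {e f k : El} (h1 : le e f) (h2 : le f k) : le e k := by
  have h3 := lev_le h1
  cases k <;> simp only [le] at h2 ⊢
  · rcases h2 with h | rfl | rfl
    · left; omega
    · simpa [le] using h1
    · right; right; simpa [le] using h1
  · rcases h2 with rfl | rfl | rfl
    · simpa [le] using h1
    · right; left; simpa [le] using h1
    · right; right; simpa [le] using h1
  · rcases h2 with h | rfl | rfl
    · left; omega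
    · simpa [le] using h1
    · right; right; simpa [le] using h1
  · subst h2; simpa [le] using h1
  · subst h2; simpa [le] using h1
  · omega

lemma le_antisymm' {e f : El} (h1 : le e f) (h2 : le f e) : e = f := by
  have h3 := lev_le h1
  have h4 := lev_le h2
  cases f <;> cases e <;> simp [le, lev] at h1 h2 h3 h4 ⊢ <;> omega

/-- The partial order on the points. -/
@[reducible] def ord : PartialOrder El where
  le := le
  le_refl := le_refl'
  le_trans := fun _ _ _ => le_trans'
  le_antisymm := fun _ _ => le_antisymm'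

lemma rule_le {a b c : El} (r : Rule a b c) : le a c ∧ le b c := by
  cases r <;> simp [le, lev]

lemma rule_sup {a b c u : El} (r : Rule a b c) (ha : le a u) (hb : le b u) : le c u := by
  cases r <;> cases u <;> simp only [le, lev] at * <;> simp_all

lemma semilattice : IsSemilatticeType φ := by
  refine ⟨?_, ?_, ord, ?_⟩
  · rw [closed_iff]
    intro a b c _ h
    exact h.elim
  · intro x
    ext a
    simp only [Set.mem_ofPred_eq, Set.mem_iUnion, exists_prop]
    constructor
    · intro ha
      rw [mem_φ] at ha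
      induction ha with
      | base h' => exact ⟨{_}, ⟨Set.singleton_subset_iff.2 h', Set.finite_singleton _⟩,
          Cl.base (Set.mem_singleton _)⟩
      | step r _ _ ih1 ih2 =>
        obtain ⟨s, ⟨hs, hsf⟩, hsa⟩ := ih1
        obtain ⟨t, ⟨ht, htf⟩, htb⟩ := ih2
        exact ⟨s ∪ t, ⟨Set.union_subset hs ht, hsf.union htf⟩,
          Cl.step r (Cl.mono Set.subset_union_left hsa) (Cl.mono Set.subset_union_right htb)⟩
    · rintro ⟨y, ⟨hy, _⟩, hya⟩
      exact Cl.mono hy hya
  · rintro x q ⟨hq, hmin⟩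
    have key : ∀ e, Cl x e → le e q → Cl (x ∩ {e | le e q}) e := by
      intro e he
      induction he with
      | base h' => exact fun h => .base ⟨h', h⟩
      | step r _ _ ih1 ih2 =>
        intro h
        exact .step r (ih1 (le_trans' (rule_le r).1 h)) (ih2 (le_trans' (rule_le r).2 h))
    have h1 : x ∩ {e | le e q} = x := by
      by_contra hne
      exact hmin _ (Set.inter_subset_left.ssubset_of_ne hne) (key q hq (le_refl' q))
    constructor
    · intro e he
      rw [← h1] at he
      exact he.2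
    · intro u hu
      have : ∀ e, Cl x e → le e u := by
        intro e he
        induction he with
        | base h' => exact hu h'
        | step r _ _ ih1 ih2 => exact rule_sup r ih1 ih2
      exact this q hq

/-! ### The clopen sets form a lattice -/

lemma join_clop {C D : Set El} (hC : IsClop φ C) (hD : IsClop φ D) : IsClop φ (φ (C ∪ D)) := by
  have hC' := clop_iff.1 hC
  have hD' := clop_iff.1 hD
  set K := φ (C ∪ D) with hK
  have hKc : φ K = K := φ.idempotent (C ∪ D)
  have hKr := closed_iff.1 hKc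
  have hCK : C ⊆ K := fun a ha => Cl.base (Or.inl ha)
  have hDK : D ⊆ K := fun a ha => Cl.base (Or.inr ha)
  -- the members of `K` are members of a clopen set inside `K`, or follow by a rule
  have hor : ∀ c, c ∈ K → (∃ E : Set El, E ⊆ K ∧ c ∈ E ∧
      ∀ a b c, Rule a b c → (a ∈ E → b ∈ E → c ∈ E) ∧ (c ∈ E → a ∈ E ∨ b ∈ E)) ∨
      ∃ a b, Rule a b c ∧ a ∈ K ∧ b ∈ K := by
    intro c hc
    have hc' : Cl (C ∪ D) c := hc
    cases hc' with
    | base h =>
      rcases h with h | h
      · exact Or.inl ⟨C, hCK, h, hC'⟩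
      · exact Or.inl ⟨D, hDK, h, hD'⟩
    | step r ha hb => exact Or.inr ⟨_, _, r, ha, hb⟩
  have hy2 : ∀ n, y2 n ∈ K → x2 n ∉ K → g n ∈ K := by
    intro n h1 h2
    rcases hor _ h1 with ⟨E, hE, hcE, hr⟩ | ⟨a, b, r, ha, hb⟩
    · rcases (hr _ _ _ (.r5 n)).2 hcE with h | h
      · exact hE h
      · exact absurd (hE h) h2
    · cases r
      exact ha
  have hx1 : ∀ n, y1 n ∈ K → x2 n ∉ K → g n ∈ K → x1 n ∈ K := by
    intro n h1 h2 h3
    rcases hor _ h1 with ⟨E, hE, hcE, hr⟩ | ⟨a, b, r, ha, hb⟩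
    · have e1 : y1 (n + 1) ∈ E := by
        rcases (hr _ _ _ (.r1 n)).2 hcE with h | h
        · exact h
        · exact absurd (hE h) h2
      have e2 : y2 (n + 1) ∈ E := by
        rcases (hr _ _ _ (.r2 n)).2 hcE with h | h
        · exact h
        · exact absurd (hE h) h2
      have e3 : p (n + 1) ∈ E := (hr _ _ _ (.r6 (n + 1))).1 e1 e2
      rcases (hr _ _ _ (.r7 (n + 1))).2 e3 with h | h
      · exact hKr _ _ _ (.r3 n) (hE h) h3
      · exact hKr _ _ _ (.r4 n) (hE h) h3
    · cases r
      · exact absurd hb h2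
      · exact absurd hb h2
  have hy1 : ∀ n, x1 n ∈ K → g n ∉ K → x2 n ∈ K → y1 n ∈ K := by
    intro n h1 h2 h3
    rcases hor _ h1 with ⟨E, hE, hcE, hr⟩ | ⟨a, b, r, ha, hb⟩
    · have e1 : x1 (n + 1) ∈ E := by
        rcases (hr _ _ _ (.r3 n)).2 hcE with h | h
        · exact h
        · exact absurd (hE h) h2
      have e2 : x2 (n + 1) ∈ E := by
        rcases (hr _ _ _ (.r4 n)).2 hcE with h | h
        · exact h
        · exact absurd (hE h) h2
      have e3 : p (n + 1) ∈ E := (hr _ _ _ (.r7 (n + 1))).1 e1 e2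
      rcases (hr _ _ _ (.r6 (n + 1))).2 e3 with h | h
      · exact hKr _ _ _ (.r1 n) (hE h) h3
      · exact hKr _ _ _ (.r2 n) (hE h) h3
    · cases r
      · exact absurd hb h2
      · exact absurd hb h2
  rw [clop_iff]
  intro a b c r
  refine ⟨hKr a b c r, fun hc => ?_⟩
  rcases hor _ hc with ⟨E, hE, hcE, hr⟩ | ⟨a', b', r', ha', hb'⟩
  · rcases (hr _ _ _ r).2 hcE with h | h
    · exact Or.inl (hE h)
    · exact Or.inr (hE h)
  · by_contra hcon
    push Not at hcon
    obtain ⟨ha, hb⟩ := hcon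
    cases r <;> cases r'
    case r1.r1 n => exact hb hb'
    case r1.r2 n => exact hb hb'
    case r2.r1 n => exact hb hb'
    case r2.r2 n => exact hb hb'
    case r3.r3 n => exact hb hb'
    case r3.r4 n => exact hb hb'
    case r4.r3 n => exact hb hb'
    case r4.r4 n => exact hb hb'
    case r5.r5 n => exact hb hb'
    case r6.r6 n => exact hb hb'
    case r7.r7 n => exact hb hb'
    case r6.r7 n =>
      -- `x1, x2 ∈ K`, `y1, y2 ∉ K`
      by_cases hg : g n ∈ K
      · exact hb (hKr _ _ _ (.r5 n) hg hb')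
      · exact ha (hy1 n ha' hg hb')
    case r7.r6 n =>
      -- `y1, y2 ∈ K`, `x1, x2 ∉ K`
      exact ha (hx1 n ha' hb (hy2 n hb' hb))

lemma clop_compl {C : Set El} (hC : IsClop φ C) : IsClop φ Cᶜ :=
  ⟨hC.2, by rw [compl_compl]; exact hC.1⟩

lemma lattice : ClopIsLattice φ := by
  rintro ⟨C, hC⟩ ⟨D, hD⟩
  constructor
  · refine ⟨⟨φ (C ∪ D), join_clop hC hD⟩, ?_, ?_⟩
    · rintro ⟨E, hE⟩ h
      rcases h with h | h
      · cases h
        exact fun a ha => Cl.base (Or.inl ha)
      · cases h
        exact fun a ha => Cl.base (Or.inr ha)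
    · rintro ⟨E, hE⟩ h
      have h1 : C ⊆ E := h (Or.inl rfl)
      have h2 : D ⊆ E := h (Or.inr rfl)
      change φ (C ∪ D) ⊆ E
      rw [← hE.1]
      exact φ.monotone (Set.union_subset h1 h2)
  · refine ⟨⟨(φ (Cᶜ ∪ Dᶜ))ᶜ, clop_compl (join_clop (clop_compl hC) (clop_compl hD))⟩, ?_, ?_⟩
    · rintro ⟨E, hE⟩ h
      rcases h with h | h
      · cases h
        change (φ (Cᶜ ∪ Dᶜ))ᶜ ⊆ C
        rw [Set.compl_subset_comm]
        exact fun a ha => Cl.base (Or.inl ha)
      · cases h
        change (φ (Cᶜ ∪ Dᶜ))ᶜ ⊆ D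
        rw [Set.compl_subset_comm]
        exact fun a ha => Cl.base (Or.inr ha)
    · rintro ⟨E, hE⟩ h
      have h1 : E ⊆ C := h (Or.inl rfl)
      have h2 : E ⊆ D := h (Or.inr rfl)
      change E ⊆ (φ (Cᶜ ∪ Dᶜ))ᶜ
      rw [Set.subset_compl_comm, ← hE.2]
      exact φ.monotone (Set.union_subset (Set.compl_subset_compl.2 h1)
        (Set.compl_subset_compl.2 h2))

/-! ### A regular closed set which is not clopen -/

/-- The set of all `y1`, `y2`, `g`. -/
def U : Set El := {e | (∃ n, e = y1 n) ∨ (∃ n, e = y2 n) ∨ ∃ n, e = g n}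

/-- The set of all `x1`, `x2`. -/
def W : Set El := {e | (∃ n, e = x1 n) ∨ ∃ n, e = x2 n}

lemma φU : φ U = Wᶜ := by
  apply Set.Subset.antisymm
  · have h : φ Wᶜ = Wᶜ := by
      rw [closed_iff]
      intro a b c r ha hb
      cases r <;> simp [W] at *
    rw [← h]
    apply φ.monotone
    rintro e (⟨n, rfl⟩ | ⟨n, rfl⟩ | ⟨n, rfl⟩) <;> simp [W]
  · intro e he
    cases e with
    | y1 n => exact Cl.base (Or.inl ⟨n, rfl⟩)
    | y2 n => exact Cl.base (Or.inr (Or.inl ⟨n, rfl⟩))
    | x1 n => exact absurd (Or.inl ⟨n, rfl⟩) he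
    | x2 n => exact absurd (Or.inr ⟨n, rfl⟩) he
    | g n => exact Cl.base (Or.inr (Or.inr ⟨n, rfl⟩))
    | p n => exact Cl.step (.r6 n) (Cl.base (Or.inl ⟨n, rfl⟩)) (Cl.base (Or.inr (Or.inl ⟨n, rfl⟩)))

lemma φW : φ W = Uᶜ := by
  apply Set.Subset.antisymm
  · have h : φ Uᶜ = Uᶜ := by
      rw [closed_iff]
      intro a b c r ha hb
      cases r <;> simp [U] at *
    rw [← h]
    apply φ.monotone
    rintro e (⟨n, rfl⟩ | ⟨n, rfl⟩) <;> simp [U]
  · intro e he
    cases e with
    | y1 n => exact absurd (Or.inl ⟨n, rfl⟩) he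
    | y2 n => exact absurd (Or.inr (Or.inl ⟨n, rfl⟩)) he
    | x1 n => exact Cl.base (Or.inl ⟨n, rfl⟩)
    | x2 n => exact Cl.base (Or.inr ⟨n, rfl⟩)
    | g n => exact absurd (Or.inr (Or.inr ⟨n, rfl⟩)) he
    | p n => exact Cl.step (.r7 n) (Cl.base (Or.inl ⟨n, rfl⟩)) (Cl.base (Or.inr ⟨n, rfl⟩))

lemma reg : IsReg φ Wᶜ := by
  unfold IsReg
  rw [compl_compl, φW, compl_compl, φU]

lemma not_clop : ¬ IsClop φ Wᶜ := by
  rintro ⟨-, h⟩
  rw [compl_compl, φW] at h
  have : p 0 ∈ W := by
    rw [← h]
    simp [U]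
  simp [W] at this

/-- There is a closure space of semilattice type whose clopen sets form a lattice, while
`Clop ≠ Reg`. -/
theorem result :
    ∃ (P : Type) (φ : ClosureOperator (Set P)), Countable P ∧ IsSemilatticeType φ ∧
      ClopIsLattice φ ∧ {a | IsClop φ a} ≠ {a | IsReg φ a} := by
  refine ⟨El, φ, ?_, semilattice, lattice, fun h => ?_⟩
  · let f : El → ℕ × ℕ := fun e => match e with
      | y1 n => (0, n)
      | y2 n => (1, n)
      | x1 n => (2, n)
      | x2 n => (3, n)
      | g n => (4, n)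
      | p n => (5, n)
    refine Function.Injective.countable (f := f) ?_
    intro a b hab
    cases a <;> cases b <;> simp_all [f]
  · exact not_clop (h.symm ▸ reg : Wᶜ ∈ {a | IsClop φ a})

end Pool.Agent.Results.MP_df2171_co.ClopLatticeNotRegular
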